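import Pool.Agent.Helper12.XG.St

/-!
# Module PRE of project XG: products over the squares

Elementary inequalities for `∏ (|k² - k'²| - 1/2)` and `∏ (k'² - 1/2)`.
-/

set_option autoImplicit false

namespace Pool.Agent.Helper18.XG

open Finset Polynomial Pool.Agent.Helper12.XG Pool.Agent.Helper14.GS

private lemma low (c : ℕ) : ∀ j ≤ c,
    0 ≤ ∏ d ∈ range j, (((d : ℝ) + 1) * (2 * (c : ℝ) + 1 - d) - 1 / 2) ∧
    (j.factorial : ℝ) * ((2 * c + 1).factorial : ℝ) ≤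
      ((j : ℝ) + 1) * ((2 * c + 1 - j).factorial : ℝ) *
        ∏ d ∈ range j, (((d : ℝ) + 1) * (2 * (c : ℝ) + 1 - d) - 1 / 2) := by
  intro j
  induction j with
  | zero => intro _; simp
  | succ j ih =>
    intro hj
    obtain ⟨h0, h1⟩ := ih (by omega)
    rw [prod_range_succ]
    set P := ∏ d ∈ range j, (((d : ℝ) + 1) * (2 * (c : ℝ) + 1 - d) - 1 / 2) with hP
    have hjc : (j : ℝ) + 1 ≤ c := by exact_mod_cast hj
    have hj0 : (0 : ℝ) ≤ j := Nat.cast_nonneg j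
    have hfac : (1 / 2 : ℝ) * (j + 2) ≤ ((j : ℝ) + 1) * (2 * (c : ℝ) + 1 - j) := by nlinarith
    have hpos : (0 : ℝ) ≤ ((j : ℝ) + 1) * (2 * (c : ℝ) + 1 - j) - 1 / 2 := by linarith
    refine ⟨mul_nonneg h0 hpos, ?_⟩
    have e1 : 2 * c + 1 - j = (2 * c + 1 - (j + 1)) + 1 := by omega
    have e2 : ((2 * c + 1 - j).factorial : ℝ) =
        (2 * (c : ℝ) + 1 - j) * ((2 * c + 1 - (j + 1)).factorial : ℝ) := by
      rw [e1, Nat.factorial_succ, Nat.cast_mul]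
      congr 1
      have e3 : 2 * c + 1 - (j + 1) + 1 = 2 * c + 1 - j := by omega
      rw [e3, Nat.cast_sub (by omega)]
      push_cast
      ring
    rw [Nat.factorial_succ]
    set G := ((2 * c + 1 - (j + 1)).factorial : ℝ) with hG
    have hG0 : 0 ≤ G := Nat.cast_nonneg _
    rw [e2] at h1
    push_cast
    calc ((j : ℝ) + 1) * (j.factorial : ℝ) * ((2 * c + 1).factorial : ℝ)
        = ((j : ℝ) + 1) * ((j.factorial : ℝ) * ((2 * c + 1).factorial : ℝ)) := by ring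
      _ ≤ ((j : ℝ) + 1) * (((j : ℝ) + 1) * ((2 * (c : ℝ) + 1 - j) * G) * P) :=
          mul_le_mul_of_nonneg_left h1 (by linarith)
      _ = (G * P) * (((j : ℝ) + 1) * (((j : ℝ) + 1) * (2 * (c : ℝ) + 1 - j))) := by ring
      _ ≤ (G * P) * (((j : ℝ) + 1 + 1) * (((j : ℝ) + 1) * (2 * (c : ℝ) + 1 - j) - 1 / 2)) := by
          apply mul_le_mul_of_nonneg_left _ (mul_nonneg hG0 h0)
          nlinarith
      _ = _ := by ring

private lemma base (c : ℕ) :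
    ∏ k' ∈ (Icc 1 (c + 1)).erase (c + 1), (|((c + 1 : ℕ) : ℝ) ^ 2 - (k' : ℝ) ^ 2| - 1 / 2) =
      ∏ d ∈ range c, (((d : ℝ) + 1) * (2 * (c : ℝ) + 1 - d) - 1 / 2) := by
  have e1 : (Icc 1 (c + 1)).erase (c + 1) = Ico 1 (c + 1) := by
    ext x; simp only [mem_erase, mem_Icc, mem_Ico]; omega
  rw [e1, prod_Ico_eq_prod_range, ← prod_range_reflect]
  have e2 : c + 1 - 1 = c := by omega
  rw [e2]
  apply prod_congr rfl
  intro d hd
  rw [mem_range] at hd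
  have hdc : (d : ℝ) + 1 ≤ c := by exact_mod_cast hd
  have hd0 : (0 : ℝ) ≤ d := Nat.cast_nonneg d
  have e3 : ((1 + (c - 1 - d) : ℕ) : ℝ) = c - d := by
    have : 1 + (c - 1 - d) = c - d := by omega
    rw [this, Nat.cast_sub (by omega)]
  rw [e3]
  push_cast
  have e4 : ((c : ℝ) + 1) ^ 2 - ((c : ℝ) - d) ^ 2 = ((d : ℝ) + 1) * (2 * (c : ℝ) + 1 - d) := by ring
  rw [e4, abs_of_nonneg (mul_nonneg (by linarith) (by linarith))]

private lemma up (c : ℕ) : ∀ m : ℕ,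
    0 ≤ ∏ k' ∈ (Icc 1 (c + 1 + m)).erase (c + 1),
      (|((c + 1 : ℕ) : ℝ) ^ 2 - (k' : ℝ) ^ 2| - 1 / 2) ∧
    (c.factorial : ℝ) * ((2 * c + 1).factorial : ℝ) *
        ((m.factorial : ℝ) * ((2 * (c + 1) + m).factorial : ℝ)) ≤
      ((c : ℝ) + 1) * ((c + 1).factorial : ℝ) * (((m : ℝ) + 1) * ((2 * (c + 1)).factorial : ℝ)) *
        ∏ k' ∈ (Icc 1 (c + 1 + m)).erase (c + 1),
          (|((c + 1 : ℕ) : ℝ) ^ 2 - (k' : ℝ) ^ 2| - 1 / 2) := by
  intro m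
  induction m with
  | zero =>
    obtain ⟨h0, h1⟩ := low c c le_rfl
    have e1 : 2 * c + 1 - c = c + 1 := by omega
    rw [e1] at h1
    simp only [add_zero, Nat.factorial_zero, Nat.cast_one, Nat.cast_zero, zero_add, one_mul]
    rw [base c]
    refine ⟨h0, ?_⟩
    have hF : (0 : ℝ) ≤ ((2 * (c + 1)).factorial : ℝ) := Nat.cast_nonneg _
    calc (c.factorial : ℝ) * ((2 * c + 1).factorial : ℝ) * ((2 * (c + 1)).factorial : ℝ)
        ≤ (((c : ℝ) + 1) * ((c + 1).factorial : ℝ) *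
            ∏ d ∈ range c, (((d : ℝ) + 1) * (2 * (c : ℝ) + 1 - d) - 1 / 2)) *
              ((2 * (c + 1)).factorial : ℝ) := mul_le_mul_of_nonneg_right h1 hF
      _ = _ := by ring
  | succ m ih =>
    obtain ⟨h0, h1⟩ := ih
    have e1 : (Icc 1 (c + 1 + (m + 1))).erase (c + 1) =
        insert (c + 1 + (m + 1)) ((Icc 1 (c + 1 + m)).erase (c + 1)) := by
      ext x; simp only [mem_erase, mem_Icc, mem_insert]; omega
    have e2 : (c + 1 + (m + 1)) ∉ ((Icc 1 (c + 1 + m)).erase (c + 1)) := by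
      simp only [mem_erase, mem_Icc]; omega
    rw [e1, prod_insert e2]
    set P := ∏ k' ∈ (Icc 1 (c + 1 + m)).erase (c + 1),
          (|((c + 1 : ℕ) : ℝ) ^ 2 - (k' : ℝ) ^ 2| - 1 / 2) with hP
    have hc0 : (0 : ℝ) ≤ c := Nat.cast_nonneg c
    have hm0 : (0 : ℝ) ≤ m := Nat.cast_nonneg m
    have e3 : |((c + 1 : ℕ) : ℝ) ^ 2 - ((c + 1 + (m + 1) : ℕ) : ℝ) ^ 2| =
        ((m : ℝ) + 1) * (2 * (c : ℝ) + m + 3) := by
      rw [abs_of_nonpos]
      · push_cast; ring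
      · push_cast; nlinarith
    rw [e3]
    have hfac : (1 / 2 : ℝ) * (m + 2) ≤ ((m : ℝ) + 1) * (2 * (c : ℝ) + m + 3) := by nlinarith
    have hpos : (0 : ℝ) ≤ ((m : ℝ) + 1) * (2 * (c : ℝ) + m + 3) - 1 / 2 := by linarith
    refine ⟨mul_nonneg hpos h0, ?_⟩
    have e4 : ((2 * (c + 1) + (m + 1)).factorial : ℝ) =
        (2 * (c : ℝ) + m + 3) * ((2 * (c + 1) + m).factorial : ℝ) := by
      rw [← add_assoc, Nat.factorial_succ]; push_cast; ring
    rw [e4, Nat.factorial_succ m]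
    push_cast
    set F := ((2 * (c + 1) + m).factorial : ℝ) with hF
    set G := (c.factorial : ℝ) * ((2 * c + 1).factorial : ℝ) with hG
    set H := ((c : ℝ) + 1) * ((c + 1).factorial : ℝ) with hH
    set K := ((2 * (c + 1)).factorial : ℝ) with hK
    have hH0 : 0 ≤ H := mul_nonneg (by linarith) (Nat.cast_nonneg _)
    have hK0 : 0 ≤ K := Nat.cast_nonneg _
    have hS : (0 : ℝ) ≤ ((m : ℝ) + 1) * (2 * (c : ℝ) + m + 3) := by nlinarith
    calc G * ((((m : ℝ) + 1) * (m.factorial : ℝ)) * ((2 * (c : ℝ) + m + 3) * F))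
        = (((m : ℝ) + 1) * (2 * (c : ℝ) + m + 3)) * (G * ((m.factorial : ℝ) * F)) := by ring
      _ ≤ (((m : ℝ) + 1) * (2 * (c : ℝ) + m + 3)) * (H * (((m : ℝ) + 1) * K) * P) :=
          mul_le_mul_of_nonneg_left h1 hS
      _ = (H * K * P) * ((((m : ℝ) + 1) * (2 * (c : ℝ) + m + 3)) * ((m : ℝ) + 1)) := by ring
      _ ≤ (H * K * P) * ((((m : ℝ) + 1) * (2 * (c : ℝ) + m + 3) - 1 / 2) * ((m : ℝ) + 1 + 1)) := by
          apply mul_le_mul_of_nonneg_left _ (mul_nonneg (mul_nonneg hH0 hK0) h0)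
          nlinarith
      _ = _ := by ring

private lemma facsq (k : ℕ) : ∀ m : ℕ, ((m + k).factorial) ^ 2 ≤
    m.factorial * (m + 2 * k).factorial := by
  induction k with
  | zero => intro m; simp [sq]
  | succ k ih =>
    intro m
    have h := ih (m + 1)
    have e1 : m + (k + 1) = m + 1 + k := by ring
    have e2 : m + 2 * (k + 1) = (m + 1 + 2 * k) + 1 := by ring
    rw [e1, e2, Nat.factorial_succ (m + 1 + 2 * k)]
    rw [Nat.factorial_succ m] at h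
    calc ((m + 1 + k).factorial) ^ 2 ≤ (m + 1) * m.factorial * (m + 1 + 2 * k).factorial := h
      _ = (m + 1) * (m.factorial * (m + 1 + 2 * k).factorial) := by ring
      _ ≤ (m + 1 + 2 * k + 1) * (m.factorial * (m + 1 + 2 * k).factorial) :=
          Nat.mul_le_mul_right _ (by omega)
      _ = _ := by ring

private lemma part1 (c m : ℕ) : (((c + 1 + m).factorial : ℝ)) ^ 2 ≤
    4 * ((c + 1 + m : ℕ) : ℝ) ^ 4 * ∏ k' ∈ (Icc 1 (c + 1 + m)).erase (c + 1),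
      (|((c + 1 : ℕ) : ℝ) ^ 2 - (k' : ℝ) ^ 2| - 1 / 2) := by
  obtain ⟨h0, h1⟩ := up c m
  set P := ∏ k' ∈ (Icc 1 (c + 1 + m)).erase (c + 1),
          (|((c + 1 : ℕ) : ℝ) ^ 2 - (k' : ℝ) ^ 2| - 1 / 2) with hP
  have hc0 : (0 : ℝ) ≤ c := Nat.cast_nonneg c
  have hm0 : (0 : ℝ) ≤ m := Nat.cast_nonneg m
  have hfs : (((c + 1 + m).factorial : ℝ)) ^ 2 ≤
      (m.factorial : ℝ) * ((2 * (c + 1) + m).factorial : ℝ) := by
    have h := facsq (c + 1) m
    have e1 : m + (c + 1) = c + 1 + m := by ring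
    have e2 : m + 2 * (c + 1) = 2 * (c + 1) + m := by ring
    rw [e1, e2] at h
    exact_mod_cast h
  have e1 : ((c + 1).factorial : ℝ) = ((c : ℝ) + 1) * (c.factorial : ℝ) := by
    rw [Nat.factorial_succ]; push_cast; ring
  have e2 : ((2 * (c + 1)).factorial : ℝ) = (2 * (c : ℝ) + 2) * ((2 * c + 1).factorial : ℝ) := by
    have : 2 * (c + 1) = (2 * c + 1) + 1 := by ring
    rw [this, Nat.factorial_succ]; push_cast; ring
  rw [e1, e2] at h1
  have hcf : (0 : ℝ) < (c.factorial : ℝ) := by exact_mod_cast Nat.factorial_pos c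
  have hcg : (0 : ℝ) < ((2 * c + 1).factorial : ℝ) := by exact_mod_cast Nat.factorial_pos _
  have h2 : (m.factorial : ℝ) * ((2 * (c + 1) + m).factorial : ℝ) ≤
      2 * ((c : ℝ) + 1) ^ 3 * ((m : ℝ) + 1) * P := by
    have hpos : (0 : ℝ) < (c.factorial : ℝ) * ((2 * c + 1).factorial : ℝ) := mul_pos hcf hcg
    apply le_of_mul_le_mul_left _ hpos
    calc (c.factorial : ℝ) * ((2 * c + 1).factorial : ℝ) *
          ((m.factorial : ℝ) * ((2 * (c + 1) + m).factorial : ℝ))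
        ≤ _ := h1
      _ = _ := by ring
  refine hfs.trans (h2.trans ?_)
  apply mul_le_mul_of_nonneg_right _ h0
  push_cast
  have a1 : (c : ℝ) + 1 ≤ (c : ℝ) + 1 + m := by linarith
  have a2 : (m : ℝ) + 1 ≤ (c : ℝ) + 1 + m := by linarith
  have a3 : ((c : ℝ) + 1) ^ 3 ≤ ((c : ℝ) + 1 + m) ^ 3 :=
    pow_le_pow_left₀ (by linarith) a1 3
  have a4 : ((c : ℝ) + 1) ^ 3 * ((m : ℝ) + 1) ≤ ((c : ℝ) + 1 + m) ^ 3 * ((c : ℝ) + 1 + m) :=
    mul_le_mul a3 a2 (by linarith) (by positivity)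
  have a5 : (0 : ℝ) ≤ ((c : ℝ) + 1 + m) ^ 4 := by positivity
  nlinarith

private lemma part2 : ∀ Q : ℕ, 0 ≤ ∏ k' ∈ Icc 1 Q, ((k' : ℝ) ^ 2 - 1 / 2) ∧
    ((Q.factorial : ℝ)) ^ 2 ≤ ((Q : ℝ) + 1) * ∏ k' ∈ Icc 1 Q, ((k' : ℝ) ^ 2 - 1 / 2) := by
  intro Q
  induction Q with
  | zero => simp
  | succ Q ih =>
    obtain ⟨h0, h1⟩ := ih
    rw [prod_Icc_succ_top (by omega)]
    set P := ∏ k' ∈ Icc 1 Q, ((k' : ℝ) ^ 2 - 1 / 2) with hP
    have hQ : (0 : ℝ) ≤ Q := Nat.cast_nonneg Q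
    rw [Nat.factorial_succ]
    push_cast
    refine ⟨mul_nonneg h0 (by nlinarith), ?_⟩
    calc (((Q : ℝ) + 1) * (Q.factorial : ℝ)) ^ 2 = ((Q : ℝ) + 1) ^ 2 * (Q.factorial : ℝ) ^ 2 := by
          ring
      _ ≤ ((Q : ℝ) + 1) ^ 2 * (((Q : ℝ) + 1) * P) := mul_le_mul_of_nonneg_left h1 (by positivity)
      _ = P * (((Q : ℝ) + 1) ^ 2 * ((Q : ℝ) + 1)) := by ring
      _ ≤ P * (((Q : ℝ) + 1 + 1) * (((Q : ℝ) + 1) ^ 2 - 1 / 2)) := by
          apply mul_le_mul_of_nonneg_left _ h0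
          nlinarith
      _ = _ := by ring

/-- **PRE**: products over the squares. -/
theorem hPRE : Pool.Agent.Helper12.XG.StPRE := by
  refine ⟨?_, fun Q => (part2 Q).2⟩
  intro Q k hk hkQ
  obtain ⟨c, rfl⟩ : ∃ c, k = c + 1 := ⟨k - 1, by omega⟩
  obtain ⟨m, rfl⟩ : ∃ m, Q = c + 1 + m := ⟨Q - (c + 1), by omega⟩
  exact part1 c m

end Pool.Agent.Helper18.XG
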